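import Mathlib

set_option autoImplicit false

/-!
# Commutative groups of automorphisms and subgroups which are closed under inversion
-/

namespace Pool.Agent.L0h20.QS

variable {G : Type} [CommGroup G]

theorem inv_app (σ : MulAut G) (x : G) : σ (σ⁻¹ x) = x := by
  have : (σ * σ⁻¹) x = x := by rw [mul_inv_cancel]; rfl
  exact this

theorem inv_app' (σ : MulAut G) (x : G) : σ⁻¹ (σ x) = x := by
  have : (σ⁻¹ * σ) x = x := by rw [inv_mul_cancel]; rfl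
  exact this

theorem one_of (σ : MulAut G) {x : G} (h : σ x = 1) : x = 1 :=
  σ.injective (h.trans (map_one σ).symm)

section

variable (h2 : ∀ a : G, a * a = 1) {Γ : Subgroup (MulAut G)}
  (hΓ : ∀ σ ∈ Γ, ∀ τ ∈ Γ, σ * τ = τ * σ)
  (hA : ∀ σ ∈ Γ, ∀ τ ∈ Γ, σ ≠ τ → ∃ η ∈ Γ, ∀ x, η x = σ x * τ x)

include hΓ in
theorem comm' {σ τ : MulAut G} (hσ : σ ∈ Γ) (hτ : τ ∈ Γ) (x : G) : σ (τ x) = τ (σ x) := by
  have h := hΓ σ hσ τ hτ
  have h1 := congrArg (fun f : MulAut G => f x) h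
  exact h1

include h2 in
theorem mul_eq_one' {a b : G} : a * b = 1 ↔ a = b := by
  constructor
  · intro h
    have h3 := h2 b
    calc a = a * (b * b) := by rw [h3, mul_one]
      _ = (a * b) * b := by rw [mul_assoc]
      _ = b := by rw [h, one_mul]
  · rintro rfl
    exact h2 a

include hΓ in
/-- If `Γ` is transitive on the elements different from `1`, then `Γ` and `0` form a field. -/
theorem add_of_trans (h2 : ∀ a : G, a * a = 1)
    (hT : ∀ a b : G, a ≠ 1 → b ≠ 1 → ∃ σ ∈ Γ, σ a = b) :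
    ∀ σ ∈ Γ, ∀ τ ∈ Γ, σ ≠ τ → ∃ η ∈ Γ, ∀ x, η x = σ x * τ x := by
  intro σ hσ τ hτ hne
  obtain ⟨e, he⟩ : ∃ e, σ e ≠ τ e := by
    by_contra hcon
    push Not at hcon
    exact hne (MulEquiv.ext hcon)
  have he1 : e ≠ 1 := by
    rintro rfl
    exact he (by rw [map_one, map_one])
  obtain ⟨η, hη, h1⟩ := hT e (σ e * τ e) he1 fun h => he ((mul_eq_one' h2).1 h)
  refine ⟨η, hη, fun x => ?_⟩
  by_cases hx : x = 1
  · simp [hx]
  · obtain ⟨ρ, hρ, rfl⟩ := hT e x he1 hx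
    rw [comm' hΓ hη hρ, comm' hΓ hσ hρ, comm' hΓ hτ hρ, h1, map_mul]

include h2 hΓ hA in
/-- Hua's identity: closure under `a, b ↦ a ^ 2 b`. -/
theorem hua {e : G} (he : e ≠ 1) (V : Subgroup G)
    (hV : ∀ σ ∈ Γ, σ e ∈ V → σ⁻¹ e ∈ V) {γ δ : MulAut G} (hγ : γ ∈ Γ) (hδ : δ ∈ Γ)
    (h1 : γ e ∈ V) (h3 : δ e ∈ V) : γ (γ (δ e)) ∈ V := by
  by_cases hc : γ (δ e) = e
  · rw [hc]
    exact h1
  have hγi := Γ.inv_mem hγ
  have hδi := Γ.inv_mem hδ
  -- `η = γ + δ⁻¹`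
  have hne : γ ≠ δ⁻¹ := by
    intro h
    apply hc
    rw [h, inv_app']
  obtain ⟨η, hη, hηx⟩ := hA _ hγ _ hδi hne
  have hηV : η e ∈ V := by
    rw [hηx]
    exact V.mul_mem h1 (hV δ hδ h3)
  have hηi := Γ.inv_mem hη
  -- `θ = γ⁻¹ + η⁻¹`
  have hne2 : γ⁻¹ ≠ η⁻¹ := by
    intro h
    have h5 : η = γ := (inv_injective h).symm
    have h6 := hηx e
    rw [h5] at h6
    have h7 : δ⁻¹ e = 1 := by
      have : γ e * δ⁻¹ e = γ e * 1 := by rw [mul_one]; exact h6.symm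
      exact mul_left_cancel this
    exact he (one_of _ h7)
  obtain ⟨θ, hθ, hθx⟩ := hA _ hγi _ hηi hne2
  have hθV : θ e ∈ V := by
    rw [hθx]
    exact V.mul_mem (hV γ hγ h1) (hV η hη hηV)
  have hθiV : θ⁻¹ e ∈ V := hV θ hθ hθV
  -- `θ⁻¹ = γ + γ² δ`
  have key : θ⁻¹ e = γ e * γ (γ (δ e)) := by
    set z := θ⁻¹ e with hz
    have e1 : θ (γ (η z)) = γ (η e) := by
      rw [comm' hΓ hθ hγ, comm' hΓ hθ hη, hz, inv_app]
    have e2 : θ (γ (η z)) = η z * γ z := by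
      rw [hθx, inv_app', comm' hΓ hγ hη, inv_app']
    have e3 : γ (η e) = δ⁻¹ z := by
      rw [← e1, e2, hηx]
      calc γ z * δ⁻¹ z * γ z = (γ z * γ z) * δ⁻¹ z := by
            rw [mul_right_comm]
        _ = δ⁻¹ z := by rw [h2, one_mul]
    have e4 : z = δ (γ (η e)) := by rw [e3, inv_app]
    rw [e4, hηx, map_mul, map_mul, comm' hΓ hγ hδi, inv_app, comm' hΓ hδ hγ, comm' hΓ hδ hγ,
      mul_comm]
  rw [key] at hθiV
  exact (V.mul_mem_cancel_left h1).1 hθiV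

include h2 hΓ hA in
/-- Closure under products. -/
theorem mul_closed [Finite G] {e : G} (he : e ≠ 1) (V : Subgroup G) (heV : e ∈ V)
    (hV : ∀ σ ∈ Γ, σ e ∈ V → σ⁻¹ e ∈ V) {γ δ : MulAut G} (hγ : γ ∈ Γ) (hδ : δ ∈ Γ)
    (h1 : γ e ∈ V) (h3 : δ e ∈ V) : γ (δ e) ∈ V := by
  have hp : ∀ i : ℕ, γ ^ (2 ^ i) ∈ Γ := fun i => Γ.pow_mem hγ _
  have sq' : ∀ i : ℕ, γ ^ (2 ^ (i + 1)) = γ ^ (2 ^ i) * γ ^ (2 ^ i) := by
    intro i
    rw [← pow_add]
    congr 1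
    rw [pow_succ]
    ring
  have sq : ∀ i : ℕ, ∀ x, (γ ^ (2 ^ (i + 1))) x = (γ ^ (2 ^ i)) ((γ ^ (2 ^ i)) x) := by
    intro i x
    rw [sq']
    rfl
  have hK : ∀ i : ℕ, (γ ^ (2 ^ i)) e ∈ V := by
    intro i
    induction i with
    | zero => simpa using h1
    | succ i ih =>
      rw [sq]
      have := hua h2 hΓ hA he V hV (hp i) Γ.one_mem ih (by simpa using heV)
      simpa using this
  -- injectivity of squaring
  have inj : ∀ σ ∈ Γ, ∀ τ ∈ Γ, σ * σ = τ * τ → σ = τ := by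
    intro σ hσ τ hτ h
    by_contra hne
    obtain ⟨η, hη, hηx⟩ := hA σ hσ τ hτ hne
    have h' : σ (σ e) = τ (τ e) := congrArg (fun f : MulAut G => f e) h
    have h4 : η (η e) = 1 := by
      rw [hηx e, map_mul, hηx, hηx, h', comm' hΓ hσ hτ]
      calc τ (τ e) * τ (σ e) * (τ (σ e) * τ (τ e))
          = (τ (σ e) * τ (σ e)) * (τ (τ e) * τ (τ e)) := by ac_rfl
        _ = 1 := by rw [h2, h2, one_mul]
    exact he (one_of _ (one_of _ h4))
  obtain ⟨i, j, hij, he'⟩ := Finite.exists_ne_map_eq_of_infinite (fun i : ℕ => γ ^ (2 ^ i))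
  have main : ∀ i j : ℕ, i < j → γ ^ (2 ^ i) = γ ^ (2 ^ j) →
      ∃ k : ℕ, γ = γ ^ (2 ^ (k + 1)) := by
    intro i j hij he'
    have step : ∀ i k : ℕ, γ ^ (2 ^ i) = γ ^ (2 ^ (i + k)) → γ = γ ^ (2 ^ k) := by
      intro i
      induction i with
      | zero =>
        intro k h
        simpa using h
      | succ i ih =>
        intro k h
        apply ih k
        apply inj _ (hp i) _ (hp (i + k))
        rw [← sq', ← sq', h]
        congr 2
        ring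
    refine ⟨j - i - 1, ?_⟩
    have hji : j - i - 1 + 1 = j - i := by omega
    rw [hji]
    apply step i
    rw [he']
    congr 2
    omega
  have hk : ∃ k : ℕ, γ = γ ^ (2 ^ (k + 1)) := by
    rcases Nat.lt_or_gt_of_ne hij with h | h
    · exact main i j h he'
    · exact main j i h he'.symm
  obtain ⟨k, hk⟩ := hk
  have hx : γ (δ e) = (γ ^ (2 ^ (k + 1))) (δ e) := congrArg (fun f : MulAut G => f (δ e)) hk
  rw [hx, sq]
  exact hua h2 hΓ hA he V hV (hp k) hδ (hK k) h3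

end

end Pool.Agent.L0h20.QS
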