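import Pool.Agent.L0h20.QS.Scal
import Pool.Agent.H315R3.ETC.Main

set_option autoImplicit false

/-!
# Structures in which orthogonal elements are proportional over a field of scalars
-/

namespace Pool.Agent.L0h20.QS

open Pool.Agent.H315R3.ETC

theorem C2_cases : ∀ a : C2, a = 1 ∨ a = gen := by decide

theorem gen_ne : (gen : C2) ≠ 1 := by decide

/-- The structures of order one with `-1 ≠ 1` are of elementary type. -/
theorem elem_two {S : QData} (hS : IsQuat S) (hn : S.neg ≠ 1) (h : ∀ a : S.G, a = 1 ∨ a = S.neg) :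
    Elem S := by
  classical
  have hc : Nat.card S.G = 2 := by
    rw [Nat.card_eq_two_iff]
    refine ⟨1, S.neg, hn.symm, ?_⟩
    ext a
    simpa using h a
  have hf : Finite S.G := Nat.finite_of_card_ne_zero (by omega)
  have h2 : Nat.card C2 = 2 := by
    show Nat.card (Multiplicative (ZMod 2)) = 2
    simp
  have : Fact (Nat.Prime 2) := ⟨Nat.prime_two⟩
  let φ : C2 ≃* S.G := mulEquivOfPrimeCardEq h2 hc
  have hg : φ gen = S.neg := by
    rcases h (φ gen) with h1 | h1
    · exact absurd (φ.injective (h1.trans (map_one φ).symm)) gen_ne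
    · exact h1
  have z1 : ∀ x, S.q 1 x = S.zero := fun x => q_symm hS (q_one hS x)
  have z2 : ∀ x, S.q x 1 = S.zero := fun x => q_one hS x
  by_cases ht : S.q S.neg S.neg = S.zero
  · refine Elem.iso L11 S Elem.l11 ⟨φ, hg, ?_⟩
    have hz : ∀ x y : S.G, S.q x y = S.zero := by
      intro x y
      rcases h x with rfl | rfl
      · exact z1 y
      · rcases h y with rfl | rfl
        · exact z2 _
        · exact ht
    intro a b c d
    rw [hz, hz]
    exact ⟨fun _ => rfl, fun _ => rfl⟩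
  · refine Elem.iso L1 S Elem.l1 ⟨φ, hg, ?_⟩
    have hv : ∀ a b : C2, S.q (φ a) (φ b) = if a = gen ∧ b = gen then S.q S.neg S.neg else S.zero := by
      intro a b
      rcases C2_cases a with rfl | rfl
      · rw [map_one, z1, if_neg (fun h => gen_ne h.1.symm)]
      · rcases C2_cases b with rfl | rfl
        · rw [map_one, z2, if_neg (fun h => gen_ne h.2.symm)]
        · rw [hg, if_pos ⟨rfl, rfl⟩]
    have key : ∀ a b c d : C2, decide (a = gen ∧ b = gen) = decide (c = gen ∧ d = gen) ↔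
        S.q (φ a) (φ b) = S.q (φ c) (φ d) := by
      intro a b c d
      rw [hv, hv]
      by_cases h1 : a = gen ∧ b = gen <;> by_cases h3 : c = gen ∧ d = gen
      · simp [h1, h3]
      · rw [if_pos h1, if_neg h3, decide_eq_true h1, decide_eq_false h3]
        exact ⟨fun h' => absurd h' (by decide), fun h' => absurd h' ht⟩
      · rw [if_neg h1, if_pos h3, decide_eq_false h1, decide_eq_true h3]
        exact ⟨fun h' => absurd h' (by decide), fun h' => absurd h'.symm ht⟩
      · rw [if_neg h1, if_neg h3, decide_eq_false h1, decide_eq_false h3]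
        exact ⟨fun _ => rfl, fun _ => rfl⟩
    exact key

section

variable {S : QData} (hS : IsQuat S) {Γ : Subgroup (MulAut S.G)}
  (hΓ : ∀ σ ∈ Γ, ∀ τ ∈ Γ, σ * τ = τ * σ)
  (hA : ∀ σ ∈ Γ, ∀ τ ∈ Γ, σ ≠ τ → ∃ η ∈ Γ, ∀ x, η x = σ x * τ x)
  (hq : ∀ σ ∈ Γ, ∀ a b, S.q a b = S.zero → S.q (σ a) (σ b) = S.zero)
  (hn : ∀ σ ∈ Γ, σ S.neg = S.neg)
  (hO : ∀ a b : S.G, a ≠ 1 → b ≠ 1 → S.q a b = S.zero → ∃ σ ∈ Γ, σ a = b)

include hS hΓ hA hq hn hO in
theorem classify [Finite S.G] :
    Elem S ∧ ((S.neg ≠ 1 ∧ ∀ a : S.G, a = 1 ∨ a = S.neg) ∨ (S.neg = 1 ∧ ∃ N : Subgroup S.G,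
      (N = ⊥ ∨ ∃ a : S.G, a ≠ 1 ∧ ∀ x, x ∈ N ↔ x = 1 ∨ ∃ σ ∈ Γ, x = σ a) ∧
        ∀ a b : S.G, S.q a b = S.zero ↔ a = 1 ∨ b = 1 ∨ a = b ∨ (a ∈ N ∧ b ∈ N))) := by
  by_cases hneg : S.neg = 1
  · have self : ∀ a : S.G, S.q a a = S.zero := by
      intro a
      have := hS.qs1 a
      rwa [hneg, one_mul] at this
    have htr : ∀ a b c : S.G, b ≠ 1 → S.q a b = S.zero → S.q b c = S.zero →
        S.q a c = S.zero := by
      intro a b c hb hab hbc
      by_cases ha : a = 1
      · rw [ha]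
        exact q_symm hS (q_one hS c)
      by_cases hc : c = 1
      · rw [hc]
        exact q_one hS a
      obtain ⟨σ, hσ, rfl⟩ := hO b a hb ha (q_symm hS hab)
      obtain ⟨τ, hτ, rfl⟩ := hO b c hb hc hbc
      have h1 : S.q b (σ⁻¹ b) = S.zero := inv_closed hS hA hq (self b) hσ (q_symm hS hab)
      have h2 := prod_closed hS hΓ hA hq (self b) (Γ.inv_mem hσ) hτ h1 hbc
      have h3 := hq σ hσ _ _ h2
      rwa [inv_app] at h3
    have hE : Elem S :=
      Pool.Agent.H315R3.ETC.main S hS inferInstance hneg htr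
    refine ⟨hE, Or.inr ⟨hneg, ?_⟩⟩
    obtain ⟨N, hN⟩ := shape hS hneg htr
    by_cases hbig : ∃ a ∈ N, ∃ b ∈ N, a ≠ 1 ∧ b ≠ 1 ∧ a ≠ b
    · obtain ⟨a, ha, b, hb, ha1, hb1, hab⟩ := hbig
      refine ⟨N, Or.inr ⟨a, ha1, fun x => ⟨fun hx => ?_, ?_⟩⟩, hN⟩
      · by_cases hx1 : x = 1
        · exact Or.inl hx1
        · obtain ⟨σ, hσ, h1⟩ := hO a x ha1 hx1 ((hN a x).2 (Or.inr (Or.inr (Or.inr ⟨ha, hx⟩))))
          exact Or.inr ⟨σ, hσ, h1.symm⟩
      · rintro (rfl | ⟨σ, hσ, rfl⟩)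
        · exact N.one_mem
        · have h1 := hq σ hσ _ _ ((hN a b).2 (Or.inr (Or.inr (Or.inr ⟨ha, hb⟩))))
          rcases (hN _ _).1 h1 with h2 | h2 | h2 | h2
          · exact absurd (one_of _ h2) ha1
          · exact absurd (one_of _ h2) hb1
          · exact absurd (σ.injective h2) hab
          · exact h2.1
    · push Not at hbig
      refine ⟨⊥, Or.inl rfl, fun a b => ⟨fun h => ?_, ?_⟩⟩
      · rcases (hN a b).1 h with h1 | h1 | h1 | ⟨h1, h3⟩
        · exact Or.inl h1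
        · exact Or.inr (Or.inl h1)
        · exact Or.inr (Or.inr (Or.inl h1))
        · by_cases ha : a = 1
          · exact Or.inl ha
          by_cases hb : b = 1
          · exact Or.inr (Or.inl hb)
          exact Or.inr (Or.inr (Or.inl (hbig a h1 b h3 ha hb)))
      · rintro (h1 | h1 | h1 | ⟨h1, -⟩)
        · rw [h1]; exact q_symm hS (q_one hS b)
        · rw [h1]; exact q_one hS a
        · rw [h1]; exact self b
        · rw [Subgroup.mem_bot] at h1
          rw [h1]; exact q_symm hS (q_one hS b)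
  · have key : ∀ a : S.G, a = 1 ∨ a = S.neg := by
      have h1 : ∀ σ ∈ Γ, σ = 1 := by
        intro σ hσ
        by_contra hne
        obtain ⟨η, hη, hx⟩ := hA σ hσ 1 Γ.one_mem hne
        apply hneg
        apply one_of η
        rw [hx, hn σ hσ]
        exact hS.exp2 _
      intro a
      by_contra hcon
      push Not at hcon
      have hna : S.neg * a ≠ 1 := fun h => hcon.2 ((mul_eq_one' hS.exp2).1 h).symm
      obtain ⟨σ, hσ, h2⟩ := hO a (S.neg * a) hcon.1 hna (hS.qs1 a)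
      rw [h1 σ hσ] at h2
      apply hneg
      have h3 : S.neg * a = 1 * a := by rw [one_mul]; exact h2.symm
      exact mul_right_cancel h3
    exact ⟨elem_two hS hneg key, Or.inl ⟨hneg, key⟩⟩

end

end Pool.Agent.L0h20.QS
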