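import Pool.Agent.L0h20.QS.Hua
import Pool.Agent.H315R3.ETC.Defs

set_option autoImplicit false

/-!
# Quaternionic structures with a field of scalars
-/

namespace Pool.Agent.L0h20.QS

open Pool.Agent.H315R3.ETC

section

variable {S : QData} (hS : IsQuat S) {Γ : Subgroup (MulAut S.G)}
  (hΓ : ∀ σ ∈ Γ, ∀ τ ∈ Γ, σ * τ = τ * σ)
  (hA : ∀ σ ∈ Γ, ∀ τ ∈ Γ, σ ≠ τ → ∃ η ∈ Γ, ∀ x, η x = σ x * τ x)
  (hq : ∀ σ ∈ Γ, ∀ a b, S.q a b = S.zero → S.q (σ a) (σ b) = S.zero)

include hS in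
theorem q_one (a : S.G) : S.q a 1 = S.zero := by
  have := (hS.qs3 a 1 1).1 rfl
  rwa [mul_one] at this

include hS in
theorem q_mul {a x y : S.G} (hx : S.q a x = S.zero) (hy : S.q a y = S.zero) :
    S.q a (x * y) = S.zero :=
  (hS.qs3 a x y).1 (hx.trans hy.symm)

include hS in
theorem q_symm {a b : S.G} (h : S.q a b = S.zero) : S.q b a = S.zero := by
  rw [hS.qs2]
  exact h

/-- the value group -/
def Vg (hS : IsQuat S) (a : S.G) : Subgroup S.G where
  carrier := {x | S.q a x = S.zero}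
  one_mem' := q_one hS a
  mul_mem' := fun hx hy => q_mul hS hx hy
  inv_mem' := by
    intro x hx
    have : x⁻¹ = x := inv_eq_of_mul_eq_one_left (hS.exp2 x)
    rw [this]
    exact hx

include hS hA hq in
/-- closure under inversion -/
theorem inv_closed {a b : S.G} (hab : S.q a b = S.zero) {μ : MulAut S.G} (hμ : μ ∈ Γ)
    (h : S.q a (μ b) = S.zero) : S.q a (μ⁻¹ b) = S.zero := by
  by_cases h1 : μ = 1
  · rw [h1, inv_one]
    exact hab
  obtain ⟨ν, hν, hνx⟩ := hA μ hμ 1 Γ.one_mem h1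
  have hνx' : ∀ x, ν x = μ x * x := fun x => hνx x
  have e1 : S.q a (ν b) = S.zero := by
    rw [hνx']
    exact q_mul hS h hab
  -- `ν⁻¹ a ⊥ b`
  have e2 : S.q (ν⁻¹ a) b = S.zero := by
    have := hq _ (Γ.inv_mem hν) _ _ e1
    rwa [inv_app'] at this
  have e3 : S.q b (ν⁻¹ a * a) = S.zero := q_mul hS (q_symm hS e2) (q_symm hS hab)
  have e4 : S.q (ν b) (μ a) = S.zero := by
    have := hq _ hν _ _ e3
    rw [map_mul, inv_app, hνx' a] at this
    have e : a * (μ a * a) = μ a := by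
      rw [mul_comm (μ a) a, ← mul_assoc, hS.exp2, one_mul]
    rwa [e] at this
  have e5 : S.q (b * μ⁻¹ b) a = S.zero := by
    have := hq _ (Γ.inv_mem hμ) _ _ e4
    rwa [hνx', map_mul, inv_app', inv_app'] at this
  have e6 := q_mul hS hab (q_symm hS e5)
  rwa [← mul_assoc, hS.exp2, one_mul] at e6

include hS hΓ hA hq in
/-- closure under products -/
theorem prod_closed [Finite S.G] {a b : S.G} (hab : S.q a b = S.zero) {σ τ : MulAut S.G}
    (hσ : σ ∈ Γ) (hτ : τ ∈ Γ) (h1 : S.q a (σ b) = S.zero) (h2 : S.q a (τ b) = S.zero) :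
    S.q a (σ (τ b)) = S.zero := by
  by_cases hb : b = 1
  · rw [hb, map_one, map_one]
    exact q_one hS a
  exact mul_closed hS.exp2 hΓ hA hb (Vg hS a) hab
    (fun μ hμ h => inv_closed hS hA hq hab hμ h) hσ hτ h1 h2

/-- the line of `b` -/
def Line (hA : ∀ σ ∈ Γ, ∀ τ ∈ Γ, σ ≠ τ → ∃ η ∈ Γ, ∀ x, η x = σ x * τ x) (hS : IsQuat S) (b : S.G) :
    Subgroup S.G where
  carrier := {x | x = 1 ∨ ∃ σ ∈ Γ, x = σ b}
  one_mem' := Or.inl rfl
  mul_mem' := by
    rintro x y (rfl | ⟨σ, hσ, rfl⟩) (rfl | ⟨τ, hτ, rfl⟩)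
    · left; exact one_mul 1
    · right; exact ⟨τ, hτ, one_mul _⟩
    · right; exact ⟨σ, hσ, mul_one _⟩
    · by_cases h : σ = τ
      · left
        rw [h]
        exact hS.exp2 _
      · obtain ⟨η, hη, hx⟩ := hA σ hσ τ hτ h
        right
        exact ⟨η, hη, (hx b).symm⟩
  inv_mem' := by
    intro x hx
    have : x⁻¹ = x := inv_eq_of_mul_eq_one_left (hS.exp2 x)
    rw [this]
    exact hx

theorem card_line [Finite S.G] {b : S.G} (hb : b ≠ 1) :
    Nat.card (Line hA hS b) = Nat.card Γ + 1 := by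
  classical
  have : Finite (MulAut S.G) := Finite.of_injective (fun f : MulAut S.G => (f : S.G → S.G))
    (fun f g h => MulEquiv.ext fun x => congrFun h x)
  rw [← Nat.card_congr (Equiv.refl (Option Γ)) |>.trans (Finite.card_option (α := Γ))]
  symm
  refine Nat.card_congr (Equiv.ofBijective (fun o : Option Γ => match o with
    | none => (⟨1, Or.inl rfl⟩ : Line hA hS b)
    | some σ => ⟨σ.1 b, Or.inr ⟨σ.1, σ.2, rfl⟩⟩) ⟨?_, ?_⟩)
  · rintro (_ | σ) (_ | τ) h
    · rfl
    · exfalso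
      have h1 : (1 : S.G) = τ.1 b := congrArg Subtype.val h
      exact hb (one_of _ h1.symm)
    · exfalso
      have h1 : σ.1 b = 1 := congrArg Subtype.val h
      exact hb (one_of _ h1)
    · have h1 : σ.1 b = τ.1 b := congrArg Subtype.val h
      congr 1
      apply Subtype.ext
      by_contra hne
      obtain ⟨η, -, hx⟩ := hA _ σ.2 _ τ.2 hne
      apply hb
      apply one_of η
      rw [hx, h1]
      exact hS.exp2 _
  · rintro ⟨x, rfl | ⟨σ, hσ, rfl⟩⟩
    · exact ⟨none, rfl⟩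
    · exact ⟨some ⟨σ, hσ⟩, rfl⟩

include hΓ hA hq in
/-- The index of a proper value group is at least the square root of the number of scalars. -/
theorem index_ge [Finite S.G] (a : S.G) (hV : Vg hS a ≠ ⊤) :
    Nat.card Γ + 1 ≤ (Vg hS a).index ^ 2 := by
  classical
  obtain ⟨b, hb⟩ : ∃ b, b ∉ Vg hS a := by
    by_contra hcon
    push Not at hcon
    exact hV (eq_top_iff.2 fun x _ => hcon x)
  set U := Vg hS a with hU
  have hb1 : b ≠ 1 := by
    rintro rfl
    exact hb U.one_mem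
  set L := Line hA hS b with hL
  have hcard : Nat.card L = Nat.card Γ + 1 := card_line hS hA hb1
  -- the square of the intersection
  have hsq : Nat.card (U.subgroupOf L) * Nat.card (U.subgroupOf L) ≤ Nat.card L := by
    by_cases hex : ∃ σ ∈ Γ, σ b ∈ U
    · obtain ⟨σ, hσ, hσb⟩ := hex
      set b0 := σ b with hb0
      have hb0b : σ⁻¹ b0 = b := inv_app' _ _
      have hmem : ∀ y : L, ∀ ρ ∈ Γ, ρ (y : S.G) ∈ L := by
        rintro ⟨y, rfl | ⟨τ, hτ, rfl⟩⟩ ρ hρ
        · left; exact map_one ρ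
        · right; exact ⟨ρ * τ, Γ.mul_mem hρ hτ, rfl⟩
      rw [← Nat.card_prod]
      refine Nat.card_le_card_of_injective (fun p : U.subgroupOf L × U.subgroupOf L =>
        (⟨(p.1.1 : S.G) * σ⁻¹ (p.2.1 : S.G), L.mul_mem p.1.1.2 (hmem _ _ (Γ.inv_mem hσ))⟩ : L)) ?_
      rintro ⟨⟨x, hx⟩, ⟨y, hy⟩⟩ ⟨⟨x', hx'⟩, ⟨y', hy'⟩⟩ h
      have h1 : (x : S.G) * σ⁻¹ (y : S.G) = (x' : S.G) * σ⁻¹ (y' : S.G) := congrArg Subtype.val h
      have hxU : (x : S.G) ∈ U := hx
      have hyU : (y : S.G) ∈ U := hy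
      have hxU' : (x' : S.G) ∈ U := hx'
      have hyU' : (y' : S.G) ∈ U := hy'
      -- `u = σ⁻¹ v`
      have h2 : (x : S.G) * x' = σ⁻¹ ((y : S.G) * y') := by
        rw [map_mul]
        have e1 : (x : S.G) * x' = (x * σ⁻¹ (y : S.G)) * (σ⁻¹ (y : S.G) * x') := by
          rw [← mul_assoc, mul_assoc (x : S.G), hS.exp2, mul_one]
        rw [e1, h1]
        calc (x' : S.G) * σ⁻¹ (y' : S.G) * (σ⁻¹ (y : S.G) * x')
            = (x' * x') * (σ⁻¹ (y : S.G) * σ⁻¹ (y' : S.G)) := by ac_rfl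
          _ = _ := by rw [hS.exp2, one_mul]
      have huU : (x : S.G) * x' ∈ U := U.mul_mem hxU hxU'
      have hvU : (y : S.G) * y' ∈ U := U.mul_mem hyU hyU'
      have hvL : (y : S.G) * y' ∈ L := L.mul_mem y.2 y'.2
      have hv1 : (y : S.G) * y' = 1 := by
        by_contra hv
        rcases hvL with h3 | ⟨τ, hτ, h3⟩
        · exact hv h3
        · -- `v = κ b0`, `κ = τ σ⁻¹`
          have hκ : τ * σ⁻¹ ∈ Γ := Γ.mul_mem hτ (Γ.inv_mem hσ)
          have h4 : (y : S.G) * y' = (τ * σ⁻¹) b0 := by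
            rw [h3]
            show τ b = τ (σ⁻¹ b0)
            rw [hb0b]
          have k1 : S.q a ((τ * σ⁻¹) b0) = S.zero := by
            rw [← h4]
            exact hvU
          have k2 : S.q a ((σ⁻¹ * (τ * σ⁻¹)) b0) = S.zero := by
            show S.q a (σ⁻¹ ((τ * σ⁻¹) b0)) = S.zero
            rw [← h4, ← h2]
            exact huU
          have k3 : S.q a ((τ * σ⁻¹)⁻¹ b0) = S.zero :=
            inv_closed hS hA hq hσb hκ k1
          have k4 := prod_closed hS hΓ hA hq hσb (Γ.inv_mem hκ)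
            (Γ.mul_mem (Γ.inv_mem hσ) hκ) k3 k2
          apply hb
          show S.q a b = S.zero
          rw [← hb0b]
          have e : (τ * σ⁻¹)⁻¹ ((σ⁻¹ * (τ * σ⁻¹)) b0) = σ⁻¹ b0 := by
            rw [show (σ⁻¹ * (τ * σ⁻¹)) b0 = σ⁻¹ ((τ * σ⁻¹) b0) from rfl,
              comm' hΓ (Γ.inv_mem hσ) hκ, inv_app']
          rwa [e] at k4
      have hyy : (y : S.G) = y' := (mul_eq_one' hS.exp2).1 hv1
      have hxx : (x : S.G) = x' := by
        apply (mul_eq_one' hS.exp2).1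
        rw [h2, hv1, map_one]
      have e1 : x = x' := Subtype.ext hxx
      have e2 : y = y' := Subtype.ext hyy
      subst e1
      subst e2
      rfl
    · have h1 : Nat.card (U.subgroupOf L) ≤ 1 := by
        apply Finite.card_le_one_iff_subsingleton.2
        constructor
        rintro ⟨x, hx⟩ ⟨y, hy⟩
        have key : ∀ z : L, (z : S.G) ∈ U → (z : S.G) = 1 := by
          rintro ⟨z, rfl | ⟨τ, hτ, rfl⟩⟩ hz
          · rfl
          · exact absurd ⟨τ, hτ, hz⟩ hex
        apply Subtype.ext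
        apply Subtype.ext
        show (x : S.G) = y
        rw [key x hx, key y hy]
      have h2 : 0 < Nat.card L := Nat.card_pos
      nlinarith
  have hmul : Nat.card (U.subgroupOf L) * (U.subgroupOf L).index = Nat.card L :=
    (U.subgroupOf L).card_mul_index
  have hidx : (U.subgroupOf L).index ≤ U.index := by
    have h1 : (U.subgroupOf L).index = U.relIndex L := rfl
    rw [h1]
    exact Nat.le_of_dvd (Nat.pos_of_ne_zero Subgroup.FiniteIndex.index_ne_zero)
      (Subgroup.relIndex_dvd_index_of_normal U L)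
  have hpos : 0 < Nat.card (U.subgroupOf L) := Nat.card_pos
  rw [← hcard]
  set c := Nat.card (U.subgroupOf L)
  set i := (U.subgroupOf L).index
  have h3 : c ≤ i := by
    rw [← hmul] at hsq
    exact Nat.le_of_mul_le_mul_left hsq hpos
  calc Nat.card L = c * i := hmul.symm
    _ ≤ i * i := Nat.mul_le_mul_right _ h3
    _ ≤ U.index * U.index := Nat.mul_le_mul hidx hidx
    _ = U.index ^ 2 := by ring

end

end Pool.Agent.L0h20.QS
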